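import Mathlib
import Pool.Agent.H.MP_906480_an.A

namespace Pool.Agent.Results.MP_906480_an.CH

open Set Filter Topology Pool.Agent.H.MP_6dbda4_lc Pool.Agent.H.MP_906480_an
open scoped BoundedContinuousFunction

/-- `E` has a (Schauder) basis -/
def HasBasis (E : Type) [NormedAddCommGroup E] [NormedSpace ℝ E] : Prop :=
  ∃ x : ℕ → E, ∀ y : E, ∃! a : ℕ → ℝ,
    Tendsto (fun n => ∑ i ∈ Finset.range n, a i • x i) atTop (𝓝 y)

/-- the dual of `E` has a weak-star basis -/
def HasWeakStarBasis (E : Type) [NormedAddCommGroup E] [NormedSpace ℝ E] : Prop :=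
  ∃ f : ℕ → (E →L[ℝ] ℝ), ∀ g : E →L[ℝ] ℝ, ∃! a : ℕ → ℝ,
    ∀ x : E, Tendsto (fun n => ∑ i ∈ Finset.range n, a i * f i x) atTop (𝓝 (g x))

def dd (x : ℕ → ℝ) (i : ℕ) : ℝ := x i - if i = 0 then 0 else x (i / 2)

def Chain (Z : Set ℕ) : Prop := 0 ∈ Z ∧ ∀ k ∈ Z, k / 2 ∈ Z ∧ ∀ v ∈ Z, v < k → v ≤ k / 2

open Classical in
noncomputable def top (Z : Set ℕ) (k : ℕ) : ℕ := Nat.findGreatest (· ∈ Z) k

lemma top_mem {Z : Set ℕ} (h : Chain Z) (k : ℕ) : top Z k ∈ Z := by
  classical
  exact Nat.findGreatest_spec (P := (· ∈ Z)) (Nat.zero_le k) h.1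

lemma le_top' {Z : Set ℕ} {k v : ℕ} (hv : v ∈ Z) (h : v ≤ k) : v ≤ top Z k := by
  classical
  exact Nat.le_findGreatest (P := (· ∈ Z)) h hv

lemma tele {Z : Set ℕ} (h : Chain Z) (x : ℕ → ℝ) (k : ℕ) :
    ∑ u ∈ Finset.range (k + 1), Z.indicator 1 u * dd x u = x (top Z k) := by
  classical
  induction k with
  | zero => simp [top, dd, h.1]
  | succ k ih =>
    rw [Finset.sum_range_succ, ih]
    by_cases hk : k + 1 ∈ Z
    · have e1 : top Z (k + 1) = k + 1 := Nat.findGreatest_eq hk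
      have e2 : top Z k = (k + 1) / 2 :=
        le_antisymm ((h.2 _ hk).2 _ (top_mem h k) (Nat.lt_succ_of_le (Nat.findGreatest_le k)))
          (le_top' (h.2 _ hk).1 (by omega))
      rw [e1, e2]; simp [dd, hk]
    · have e1 : top Z (k + 1) = top Z k := Nat.findGreatest_of_not hk
      rw [e1]; simp [hk]

def Zn (t : ℕ) : Set ℕ := {u | ∃ m, t / 2 ^ m = u}

lemma Zn_chain (t : ℕ) : Chain (Zn t) := by
  refine ⟨⟨t, Nat.div_eq_of_lt Nat.lt_two_pow_self⟩, ?_⟩
  rintro _ ⟨m, rfl⟩
  have e : t / 2 ^ m / 2 = t / 2 ^ (m + 1) := by rw [Nat.div_div_eq_div_mul, pow_succ]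
  refine ⟨⟨m + 1, e.symm⟩, ?_⟩
  rintro _ ⟨l, rfl⟩ hl
  rw [e]
  by_cases h : l ≤ m
  · exact absurd (Nat.div_le_div_left (Nat.pow_le_pow_right (by norm_num) h) (by positivity)) (not_le.2 hl)
  · exact Nat.div_le_div_left (Nat.pow_le_pow_right (by norm_num) (by omega)) (by positivity)

lemma Zn_top (t : ℕ) : ∀ᶠ k in atTop, top (Zn t) k = t := by
  filter_upwards [eventually_ge_atTop t] with k hk
  refine le_antisymm ?_ (le_top' ⟨0, by simp⟩ hk)
  obtain ⟨m, hm⟩ := top_mem (Zn_chain t) k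
  rw [← hm]; exact Nat.div_le_self _ _

def Zb (p : ℕ → ℕ) : Set ℕ := insert 0 (range p)

lemma br_mono {p : ℕ → ℕ} (h : Br p) : StrictMono p := strictMono_nat_of_lt_succ fun n => by
  have h1 := h.2 n
  have h2 := (mem_Lev.1 (h.lev n)).1
  have := Nat.two_pow_pos n
  omega

lemma Zb_chain {p : ℕ → ℕ} (h : Br p) : Chain (Zb p) := by
  refine ⟨Or.inl rfl, ?_⟩
  rintro _ (rfl | ⟨n, rfl⟩)
  · exact ⟨Or.inl rfl, fun v _ hv => by omega⟩
  · cases n with
    | zero => rw [h.1]; exact ⟨Or.inl rfl, fun v _ hv => by omega⟩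
    | succ n =>
      rw [h.2]
      refine ⟨Or.inr ⟨n, rfl⟩, ?_⟩
      rintro _ (rfl | ⟨m, rfl⟩) hv
      · omega
      · exact (br_mono h).monotone (Nat.lt_succ_iff.1 ((br_mono h).lt_iff_lt.1 hv))

lemma Zb_top {p : ℕ → ℕ} (h : Br p) {Q : ℕ → Prop} (hQ : ∀ᶠ n in atTop, Q (p n)) :
    ∀ᶠ k in atTop, Q (top (Zb p) k) := by
  obtain ⟨N, hN⟩ := eventually_atTop.1 hQ
  filter_upwards [eventually_ge_atTop (p N)] with k hk
  have h1 : p N ≤ top (Zb p) k := le_top' (Or.inr ⟨N, rfl⟩) hk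
  rcases top_mem (Zb_chain h) k with h2 | ⟨n, hn⟩
  · have h2' : top (Zb p) k = 0 := h2
    have := (mem_Lev.1 (h.lev N)).1
    have := Nat.two_pow_pos N
    omega
  · rw [← hn] at h1 ⊢
    exact hN n ((br_mono h).le_iff_le.1 h1)

def B : Type := ℕ →ᵇ ℝ

noncomputable instance : NormedAddCommGroup B := inferInstanceAs (NormedAddCommGroup (ℕ →ᵇ ℝ))
noncomputable instance : NormedSpace ℝ B := inferInstanceAs (NormedSpace ℝ (ℕ →ᵇ ℝ))
instance : CompleteSpace B := inferInstanceAs (CompleteSpace (ℕ →ᵇ ℝ))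

def B.fn (x : B) : ℕ →ᵇ ℝ := x

noncomputable def ev0 (t : ℕ) : B →L[ℝ] ℝ :=
  LinearMap.mkContinuous ⟨⟨fun x => x.fn t, fun _ _ => rfl⟩, fun _ _ => rfl⟩ 1 fun x => by
    rw [one_mul]; exact x.fn.norm_coe_le_norm t

noncomputable def ind (A : Set ℕ) : B :=
  BoundedContinuousFunction.ofNormedAddCommGroupDiscrete (A.indicator (1 : ℕ → ℝ)) 1 fun t => by
    by_cases h : t ∈ A <;> simp [h]

section
variable (A : W → Set ℕ)

def gens : Set B := range (fun t : ℕ => ind {t}) ∪ range fun b => ind (A b)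

noncomputable abbrev E : Submodule ℝ B := (Submodule.span ℝ (gens A)).topologicalClosure

noncomputable def eS (t : ℕ) : E A :=
  ⟨ind {t}, Submodule.le_topologicalClosure _ (Submodule.subset_span (Or.inl ⟨t, rfl⟩))⟩

noncomputable def eA (b : W) : E A :=
  ⟨ind (A b), Submodule.le_topologicalClosure _ (Submodule.subset_span (Or.inr ⟨b, rfl⟩))⟩

noncomputable def ev (t : ℕ) : E A →L[ℝ] ℝ := (ev0 t).comp (E A).subtypeL

lemma ev_eS (u t : ℕ) : ev A u (eS A t) = if u = t then 1 else 0 := by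
  change ({t} : Set ℕ).indicator (1 : ℕ → ℝ) u = _
  by_cases h : u = t <;> simp [h]

lemma ev_eA (u : ℕ) (b : W) : ev A u (eA A b) = (A b).indicator 1 u := rfl

noncomputable def ff (i : ℕ) : E A →L[ℝ] ℝ := ev A i - if i = 0 then 0 else ev A (i / 2)

lemma ff_apply (i : ℕ) (x : E A) : ff A i x = dd (fun t => ev A t x) i := by
  unfold ff dd; split_ifs <;> simp

lemma coord_le (x : E A) (t : ℕ) : |ev A t x| ≤ ‖x‖ := x.1.fn.norm_coe_le_norm t

lemma norm_le_one (x : E A) (h : ∀ t, |ev A t x| ≤ 1) : ‖x‖ ≤ 1 :=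
  (BoundedContinuousFunction.norm_le (f := x.1.fn) zero_le_one).2 h

lemma conv (S : ℕ → E A →L[ℝ] ℝ) (g : E A →L[ℝ] ℝ) (C : ℝ) (hC : ∀ k x, |S k x| ≤ C * ‖x‖)
    (h1 : ∀ t, Tendsto (fun k => S k (eS A t)) atTop (𝓝 (g (eS A t))))
    (h2 : ∀ b, Tendsto (fun k => S k (eA A b)) atTop (𝓝 (g (eA A b)))) (x : E A) :
    Tendsto (fun k => S k x) atTop (𝓝 (g x)) := by
  have hs : ∀ y (hy : y ∈ Submodule.span ℝ (gens A)),
      Tendsto (fun k => S k ⟨y, Submodule.le_topologicalClosure _ hy⟩) atTop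
        (𝓝 (g ⟨y, Submodule.le_topologicalClosure _ hy⟩)) := by
    intro y hy
    induction hy using Submodule.span_induction with
    | mem y hy => rcases hy with ⟨t, rfl⟩ | ⟨b, rfl⟩; exacts [h1 t, h2 b]
    | zero =>
      change Tendsto (fun k => S k 0) atTop (𝓝 (g 0))
      simp
    | add y z hy hz a b =>
      change Tendsto (fun k => S k (⟨y, Submodule.le_topologicalClosure _ hy⟩ + ⟨z, Submodule.le_topologicalClosure _ hz⟩)) atTop
        (𝓝 (g (⟨y, Submodule.le_topologicalClosure _ hy⟩ + ⟨z, Submodule.le_topologicalClosure _ hz⟩)))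
      simp only [map_add]; exact a.add b
    | smul c y hy a =>
      change Tendsto (fun k => S k (c • ⟨y, Submodule.le_topologicalClosure _ hy⟩)) atTop
        (𝓝 (g (c • ⟨y, Submodule.le_topologicalClosure _ hy⟩)))
      simp only [map_smul]; exact a.const_smul c
  rw [Metric.tendsto_atTop]
  intro ε hε
  set K := |C| + ‖g‖ + 1 with hK
  have hK0 : 0 < K := by positivity
  obtain ⟨y, hy, hd⟩ := Metric.mem_closure_iff.1 x.2 (ε / 2 / K) (by positivity)
  obtain ⟨N, hN⟩ := Metric.tendsto_atTop.1 (hs y hy) (ε / 2) (by positivity)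
  refine ⟨N, fun k hk => ?_⟩
  set y' : E A := ⟨y, Submodule.le_topologicalClosure _ hy⟩
  have e0 : ‖x - y'‖ < ε / 2 / K := by rw [← dist_eq_norm]; exact hd
  have e1 := hC k (x - y')
  have e2 := g.le_opNorm (x - y')
  have e3 := hN k hk
  rw [Real.dist_eq] at e3 ⊢
  rw [map_sub] at e1 e2
  rw [Real.norm_eq_abs] at e2
  rw [lt_div_iff₀ hK0] at e0
  have e4 : C * ‖x - y'‖ ≤ |C| * ‖x - y'‖ := by gcongr; exact le_abs_self _
  have e5 := norm_nonneg (x - y')
  have e6 : |S k x - g x| ≤ |S k x - S k y'| + |S k y' - g y'| + |g x - g y'| := by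
    have a1 := abs_sub_le (S k x) (S k y') (g x)
    have a2 := abs_sub_le (S k y') (g y') (g x)
    rw [abs_sub_comm (g y')] at a2
    linarith
  nlinarith

omit A in
lemma sgn_le (a : ℝ) : |(SignType.sign a : ℝ)| ≤ 1 := by
  generalize SignType.sign a = r; cases r <;> simp

lemma sum_mu (g : E A →L[ℝ] ℝ) : Summable fun t => |g (eS A t)| := by
  refine summable_of_sum_le (c := ‖g‖) (fun _ => abs_nonneg _) fun s => ?_
  let y : E A := ∑ t ∈ s, (SignType.sign (g (eS A t)) : ℝ) • eS A t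
  have h1 : g y = ∑ t ∈ s, |g (eS A t)| := by
    simp only [y, map_sum, map_smul, smul_eq_mul, sign_mul_self]
  have h2 : ‖y‖ ≤ 1 := norm_le_one A y fun u => by
    simp only [y, map_sum, map_smul, ev_eS, smul_eq_mul, mul_ite, mul_one, mul_zero, Finset.sum_ite_eq]
    split_ifs
    · exact sgn_le _
    · simp
  have := g.le_opNorm y
  rw [h1, Real.norm_eq_abs] at this
  nlinarith [le_abs_self (∑ t ∈ s, |g (eS A t)|), norm_nonneg g]

lemma summ (g : E A →L[ℝ] ℝ) (x : E A) : Summable fun t => g (eS A t) * ev A t x :=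
  Summable.of_norm_bounded ((sum_mu A g).mul_right ‖x‖) fun t => by
    rw [Real.norm_eq_abs, abs_mul]; gcongr; exact coord_le A x t

noncomputable def gg (g : E A →L[ℝ] ℝ) : E A →ₗ[ℝ] ℝ where
  toFun x := g x - ∑' t, g (eS A t) * ev A t x
  map_add' x y := by
    have : ∀ t, g (eS A t) * ev A t (x + y) = g (eS A t) * ev A t x + g (eS A t) * ev A t y := fun t => by
      simp [mul_add]
    rw [tsum_congr this, (summ A g x).tsum_add (summ A g y), map_add]; ring
  map_smul' c x := by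
    have : ∀ t, g (eS A t) * ev A t (c • x) = c * (g (eS A t) * ev A t x) := fun t => by simp; ring
    rw [tsum_congr this, tsum_mul_left, map_smul, smul_eq_mul, RingHom.id_apply, smul_eq_mul]; ring

lemma gg_eS (g : E A →L[ℝ] ℝ) (s : ℕ) : gg A g (eS A s) = 0 := by
  change g _ - ∑' t, g (eS A t) * ev A t (eS A s) = 0
  rw [tsum_eq_single s (fun t ht => by simp [ev_eS, ht])]
  simp [ev_eS]

lemma gg_le (g : E A →L[ℝ] ℝ) (x : E A) (hx : ‖x‖ ≤ 1) : gg A g x ≤ ‖g‖ + ∑' t, |g (eS A t)| := by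
  change g _ - ∑' t, g (eS A t) * ev A t x ≤ _
  have h1 := g.le_opNorm x
  have h2 : ‖∑' t, g (eS A t) * ev A t x‖ ≤ ∑' t, |g (eS A t)| :=
    tsum_of_norm_bounded (sum_mu A g).hasSum fun t => by
      rw [Real.norm_eq_abs, abs_mul]
      exact mul_le_of_le_one_right (abs_nonneg _) ((coord_le A x t).trans hx)
  rw [Real.norm_eq_abs] at h1 h2
  nlinarith [le_abs_self (g x), neg_abs_le (∑' t, g (eS A t) * ev A t x), norm_nonneg g]

lemma sum_nu (hA : ∀ a b, a ≠ b → (A a ∩ A b).Finite) (g : E A →L[ℝ] ℝ) :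
    Summable fun b => |gg A g (eA A b)| := by
  classical
  refine summable_of_sum_le (c := ‖g‖ + ∑' t, |g (eS A t)|) (fun _ => abs_nonneg _) fun s => ?_
  let y : E A := ∑ b ∈ s, (SignType.sign (gg A g (eA A b)) : ℝ) • eA A b
  have hfin : (⋃ a ∈ s, ⋃ b ∈ s.erase a, A a ∩ A b).Finite :=
    s.finite_toSet.biUnion fun a _ => (s.erase a).finite_toSet.biUnion fun b hb =>
      hA a b (Finset.ne_of_mem_erase hb).symm
  let y' : E A := y - ∑ t ∈ hfin.toFinset, ev A t y • eS A t
  have h1 : gg A g y' = ∑ b ∈ s, |gg A g (eA A b)| := by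
    simp only [y', y, map_sub, map_sum, map_smul, smul_eq_mul, sign_mul_self, gg_eS, mul_zero,
      Finset.sum_const_zero, sub_zero]
  rw [← h1]
  refine gg_le A g y' (norm_le_one A y' fun u => ?_)
  have e : ev A u y' = if u ∈ hfin.toFinset then 0 else ev A u y := by
    simp only [y', map_sub, map_sum (ev A u), map_smul, ev_eS, smul_eq_mul, mul_ite, mul_one, mul_zero,
      Finset.sum_ite_eq]
    split_ifs <;> simp
  rw [e]
  split_ifs with hu
  · simp
  · have e2 : ev A u y = ∑ b ∈ s, (SignType.sign (gg A g (eA A b)) : ℝ) * (A b).indicator 1 u := by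
      simp only [y, map_sum, map_smul, ev_eA, smul_eq_mul]
    rw [e2]
    by_cases h : ∃ a ∈ s, u ∈ A a
    · obtain ⟨a, ha, hua⟩ := h
      rw [Finset.sum_eq_single_of_mem a ha fun b hb hba => ?_]
      · simp only [hua, indicator_of_mem, Pi.one_apply, mul_one]
        exact sgn_le _
      · rw [indicator_of_notMem, mul_zero]
        intro hub
        exact hu (hfin.mem_toFinset.2 (mem_biUnion ha (mem_biUnion (Finset.mem_erase.2 ⟨hba, hb⟩) ⟨hua, hub⟩)))
    · push Not at h
      rw [Finset.sum_eq_zero fun b hb => by simp [h b hb]]; simp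

lemma exist (p : W → ℕ → ℕ) (hp : ∀ b, Br (p b)) (hpA : ∀ b n, p b n ∈ A b)
    (hA : ∀ a b, a ≠ b → (A a ∩ A b).Finite) (g : E A →L[ℝ] ℝ) : ∃ a : ℕ → ℝ,
    ∀ x : E A, Tendsto (fun n => ∑ i ∈ Finset.range n, a i * ff A i x) atTop (𝓝 (g x)) := by
  let w : ℕ ⊕ W → ℝ := Sum.elim (fun t => g (eS A t)) fun b => gg A g (eA A b)
  let Z : ℕ ⊕ W → Set ℕ := Sum.elim Zn fun b => Zb (p b)
  have hZ : ∀ i, Chain (Z i) := by rintro (t | b); exacts [Zn_chain t, Zb_chain (hp b)]
  have hw : Summable fun i => |w i| := Summable.sum _ (sum_mu A g) (sum_nu A hA g)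
  have hb : ∀ u : ℕ ⊕ W → ℝ, ∀ C, (∀ i, |u i| ≤ C) → ∀ i, ‖w i * u i‖ ≤ |w i| * C := fun u C h i => by
    rw [Real.norm_eq_abs, abs_mul]; gcongr; exact h i
  have hs : ∀ u, Summable fun i => w i * (Z i).indicator 1 u := fun u =>
    Summable.of_norm_bounded (hw.mul_right 1) (hb _ 1 fun i => by by_cases h : u ∈ Z i <;> simp [h])
  let a : ℕ → ℝ := fun u => ∑' i, w i * (Z i).indicator 1 u
  have key : ∀ k (x : E A), (∑ i ∈ Finset.range (k + 1), a i • ff A i) x = ∑' i, w i * ev A (top (Z i) k) x := by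
    intro k x
    simp only [sum_apply, smul_apply, ff_apply, smul_eq_mul, a,
      ← tsum_mul_right]
    rw [← Summable.tsum_finsetSum fun u _ => (hs u).mul_right _]
    refine tsum_congr fun i => ?_
    rw [← tele (hZ i) (fun t => ev A t x), Finset.mul_sum]
    exact Finset.sum_congr rfl fun u _ => by ring
  have lim : ∀ (x : E A) (l : W → ℝ), (∀ b, ∀ᶠ n in atTop, ev A (p b n) x = l b) →
      gg A g x = ∑' b, gg A g (eA A b) * l b →
      Tendsto (fun k => (∑ i ∈ Finset.range (k + 1), a i • ff A i) x) atTop (𝓝 (g x)) := by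
    intro x l hl hx
    simp only [key]
    have hl' : ∀ b, |l b| ≤ ‖x‖ := fun b => by
      obtain ⟨n, hn⟩ := (hl b).exists
      rw [← hn]; exact coord_le A x _
    have h := tendsto_tsum_of_dominated_convergence (𝓕 := atTop)
      (f := fun k i => w i * ev A (top (Z i) k) x) (g := fun i => w i * Sum.elim (fun t => ev A t x) l i)
      (hw.mul_right ‖x‖) (by
        rintro (t | b)
        · exact tendsto_const_nhds.congr' ((Zn_top t).mono fun k hk => by simp [Z, hk])
        · exact tendsto_const_nhds.congr' ((Zb_top (hp b) (Q := fun u => ev A u x = l b) (hl b)).mono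
            fun k hk => by simp [Z, hk]))
      (Eventually.of_forall fun k => hb _ _ fun i => coord_le A x _)
    have e : ∑' i, w i * Sum.elim (fun t => ev A t x) l i = g x := by
      rw [Summable.tsum_sum (f := fun i => w i * Sum.elim (fun t => ev A t x) l i) (summ A g x)
        (Summable.of_norm_bounded ((sum_nu A hA g).mul_right ‖x‖) fun b => by
          simp only [Function.comp, w, Sum.elim_inr, Real.norm_eq_abs, abs_mul]; gcongr; exact hl' b)]
      have : gg A g x = g x - ∑' t, g (eS A t) * ev A t x := rfl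
      simp only [w, Sum.elim_inl, Sum.elim_inr]
      linarith
    rwa [e] at h
  refine ⟨a, fun x => ?_⟩
  rw [← tendsto_add_atTop_iff_nat 1]
  have := conv A (fun k => ∑ i ∈ Finset.range (k + 1), a i • ff A i) g (∑' i, |w i|) (fun k x => ?_)
    (fun t => lim _ 0 (fun b => ?_) (by simp [gg_eS])) (fun c => ?_) x
  · simpa only [sum_apply, smul_apply, smul_eq_mul] using this
  · rw [key, ← tsum_mul_right, ← Real.norm_eq_abs]
    exact tsum_of_norm_bounded (hw.mul_right _).hasSum (hb _ _ fun i => coord_le A x _)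
  · filter_upwards [(br_mono (hp b)).tendsto_atTop.eventually (eventually_gt_atTop t)] with n hn
    simp [ev_eS, hn.ne']
  · classical
    refine lim _ (Pi.single c 1) (fun b => ?_) ?_
    · by_cases h : b = c
      · subst h; exact Eventually.of_forall fun n => by simp [ev_eA, hpA]
      · have h1 : ∀ᶠ u in atTop, u ∉ A b ∩ A c := by
          rw [← Nat.cofinite_eq_atTop]; exact (hA b c h).eventually_cofinite_notMem
        filter_upwards [(br_mono (hp b)).tendsto_atTop.eventually h1] with n hn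
        have : p b n ∉ A c := fun h2 => hn ⟨hpA b n, h2⟩
        simp [ev_eA, this, h]
    · rw [tsum_eq_single c fun b hb => by simp [hb]]; simp

end

lemma part (F x : ℕ → ℝ) (m : ℕ) : ∑ i ∈ Finset.range (2 * m), F i * dd x i =
    ∑ i ∈ Finset.range (2 * m), F i * x i -
      ∑ t ∈ Finset.range m, ((if t = 0 then 0 else F (2 * t)) + F (2 * t + 1)) * x t := by
  simp only [dd, mul_sub, Finset.sum_sub_distrib]
  congr 1
  rw [sum_two]
  refine Finset.sum_congr rfl fun t _ => ?_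
  rw [if_neg (show 2 * t + 1 ≠ 0 by omega), show (2 * t + 1) / 2 = t by omega, show 2 * t / 2 = t by omega]
  by_cases h : t = 0
  · simp [h]
  · rw [if_neg h, if_neg (by omega)]; ring

lemma additive (F : ℕ → ℝ) (h : ∀ s, Tendsto (fun n => ∑ i ∈ Finset.range n, F i * dd (fun u => if u = s then 1 else 0) i) atTop (𝓝 0)) :
    Additive F := by
  have key : ∀ s, F s = (if s = 0 then 0 else F (2 * s)) + F (2 * s + 1) := by
    intro s
    have e1 : Tendsto (fun m => 2 * m) atTop atTop :=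
      tendsto_atTop_mono (fun k => by simp only [id]; omega) tendsto_id
    have e2 := (h s).comp e1
    have e3 : ∀ᶠ m in atTop, ((fun n => ∑ i ∈ Finset.range n, F i * dd (fun u => if u = s then 1 else 0) i) ∘ fun m => 2 * m) m =
        F s - ((if s = 0 then 0 else F (2 * s)) + F (2 * s + 1)) := by
      filter_upwards [eventually_gt_atTop s] with m hm
      simp only [Function.comp, part,
        mul_ite, mul_one, mul_zero, Finset.sum_ite_eq', Finset.mem_range]
      rw [if_pos (by omega), if_pos hm]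
    have := tendsto_nhds_unique (e2.congr' e3) tendsto_const_nhds
    linarith
  exact ⟨by simpa using key 0, fun t ht => by simpa [ht] using key t⟩

lemma lev_sum {F : ℕ → ℝ} (hF : Additive F) (x : ℕ → ℝ) (n : ℕ) :
    ∑ i ∈ Finset.range (2 * 2 ^ n), F i * dd x i = ∑ t ∈ Lev n, F t * x t := by
  rw [part, Lev, Finset.sum_Ico_eq_sub _ (Nat.pow_le_pow_right (by norm_num) (by omega)), pow_succ']
  congr 1
  refine Finset.sum_congr rfl fun t _ => ?_
  by_cases h : t = 0
  · simp [h, hF.1]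
  · rw [if_neg h, ← hF.2 t h]

theorem result (hCH : Cardinal.continuum.{0} = Cardinal.aleph.{0} 1) :
    ∃ (E : Type) (_ : NormedAddCommGroup E) (_ : NormedSpace ℝ E), CompleteSpace E ∧
      HasWeakStarBasis E ∧ ¬ TopologicalSpace.SeparableSpace E ∧ ¬ HasBasis E := by
  obtain ⟨G⟩ : Nonempty (W ≃ (ℕ → ℝ) × Bool) := by
    rw [← Cardinal.eq, Cardinal.mk_toType, Cardinal.card_ord, ← hCH]; simp [Cardinal.mk_real]
  obtain ⟨D, D1, D2, D3⟩ := build fun b => (G b).1
  let A : W → Set ℕ := fun b => {t | ∃ n, t ∈ (D b).2 n}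
  have hAl : ∀ b n t, t ∈ Lev n → (t ∈ A b ↔ t ∈ (D b).2 n) := fun b n t ht =>
    ⟨fun ⟨m, hm⟩ => by rwa [Lev_uniq ht ((D1 b).2.1 m hm)], fun h => ⟨n, h⟩⟩
  have hA : ∀ a b, a ≠ b → (A a ∩ A b).Finite := by
    intro a b hab
    obtain ⟨N, hN⟩ := eventually_atTop.1 (D2 a b hab)
    refine (finite_lt_nat (2 ^ N)).subset ?_
    rintro t ⟨⟨n, hn⟩, h2⟩
    have h3 := (D1 a).2.1 n hn
    rw [hAl b n t h3] at h2
    have h4 : n < N := by
      by_contra hc
      exact Finset.disjoint_left.1 (hN n (by omega)) hn h2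
    have h5 : 2 ^ (n + 1) ≤ 2 ^ N := Nat.pow_le_pow_right (by norm_num) h4
    exact lt_of_lt_of_le (Finset.mem_Ico.1 h3).2 h5
  have hpA : ∀ b n, (D b).1 n ∈ A b := fun b n => ⟨n, (D1 b).2.2.1 n⟩
  have hsep : ¬ TopologicalSpace.SeparableSpace (E A) := by
    intro hs
    have : Countable W := Pairwise.countable_of_isOpen_disjoint (s := fun b => Metric.ball (eA A b) (1 / 2))
      (fun a b hab => Metric.ball_disjoint_ball ?_) (fun _ => Metric.isOpen_ball)
      (fun _ => Metric.nonempty_ball.2 (by norm_num))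
    · exact W_unc countable_univ
    · have h1 : ∀ᶠ u in atTop, u ∉ A a ∩ A b := by
        rw [← Nat.cofinite_eq_atTop]; exact (hA a b hab).eventually_cofinite_notMem
      obtain ⟨n, hn⟩ := ((br_mono (D1 a).1).tendsto_atTop.eventually h1).exists
      have h2 : (D a).1 n ∉ A b := fun h2 => hn ⟨hpA a n, h2⟩
      have := coord_le A (eA A a - eA A b) ((D a).1 n)
      rw [dist_eq_norm]
      simp [ev_eA, h2, hpA] at this
      norm_num
      exact this
  refine ⟨E A, inferInstance, inferInstance, inferInstance, ⟨ff A, fun g => ?_⟩, hsep, ?_⟩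
  · obtain ⟨a, ha⟩ := exist A (fun b => (D b).1) (fun b => (D1 b).1) hpA hA g
    refine ⟨a, ha, fun a' ha' => ?_⟩
    have h0 : ∀ x : E A, Tendsto (fun n => ∑ i ∈ Finset.range n, (a' - a) i * dd (fun t => ev A t x) i) atTop (𝓝 0) := by
      intro x
      have := (ha' x).sub (ha x)
      simpa only [sub_self, ← Finset.sum_sub_distrib, ← sub_mul, ff_apply, Pi.sub_apply] using this
    have hF := additive _ fun s => by simpa only [ev_eS] using h0 (eS A s)
    have h1 : ∀ b, Tendsto (fun n => ∑ t ∈ (D b).2 n, (a' - a) t) atTop (𝓝 0) := by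
      intro b
      have e1 : Tendsto (fun n => 2 * 2 ^ n) atTop atTop :=
        tendsto_atTop_mono (fun k => by have := Nat.lt_two_pow_self (n := k); simp only [id]; omega) tendsto_id
      refine ((h0 (eA A b)).comp e1).congr fun n => ?_
      simp only [Function.comp, lev_sum hF]
      rw [← Finset.sum_subset ((D1 b).2.1 n) fun t h1 h2 => by simp [ev_eA, hAl b n t h1, h2]]
      exact Finset.sum_congr rfl fun t ht => by
        have : t ∈ A b := ⟨n, ht⟩
        simp [ev_eA, this]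
    obtain ⟨b, hb, hG⟩ : ∃ b, (∃ c, c < b) ∧ (G b).1 = a' - a := by
      rcases lt_or_gt_of_ne (G.symm.injective.ne (show (a' - a, true) ≠ (a' - a, false) by simp)) with h | h
      · exact ⟨_, ⟨_, h⟩, by simp⟩
      · exact ⟨_, ⟨_, h⟩, by simp⟩
    by_contra hne
    refine D3 b hb (hG ▸ hF) (hG ▸ sub_ne_zero.2 hne) (fun c => ?_) (hG ▸ h1 b)
    have e1 : Tendsto (fun m => 2 * m) atTop atTop :=
      tendsto_atTop_mono (fun k => by simp only [id]; omega) tendsto_id
    refine ((h1 c).comp e1).congr fun m => ?_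
    simp [(D1 c).2.2.2 m, hG]
  · rintro ⟨x, hx⟩
    apply hsep
    rw [← TopologicalSpace.isSeparable_univ_iff]
    refine ((countable_range x).isSeparable.span (R := ℝ)).closure.mono fun y _ => ?_
    obtain ⟨a, ha, -⟩ := hx y
    exact mem_closure_of_tendsto ha (Eventually.of_forall fun n => Submodule.sum_mem _ fun i _ =>
      Submodule.smul_mem _ _ (Submodule.subset_span ⟨i, rfl⟩))

end Pool.Agent.Results.MP_906480_an.CH
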